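import Pool.Agent.J6H52.Sn.Main

/-!
# MP_2f4170_nt, Q2: `s_n` is reducible modulo every prime if `n = 8 k (k + 1)`

For `s_n = 1 + 2 x + ... + (n + 1) x ^ n` and `n = 8 k (k + 1)`, `k ≥ 1`, the reduction of `s_n`
modulo `p` is not irreducible, for every prime `p`. This is one of the two implications of Q2.

More generally let `n ≥ 3` and let `p` be a prime such that the reduction of `s_n` modulo `p` is
irreducible. Then `p` does not divide `2 (n + 1) (n + 2)`; if `n` is even then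
`(-1) ^ (n / 2) * 2 (n + 2)` is not a square modulo `p`; if `n` is odd then
`(-1) ^ ((n - 1) / 2) * 2 (n + 1)` is a square modulo `p`.

Proof. Stickelberger's theorem for the field generated by a root `α` of the reduction: its
discriminant is computed from `2 s_n + (x - 1) s_n' = (n + 1) (n + 2) x ^ n` and the norms of `α` and
`1 - α`.
-/

set_option autoImplicit false

open Polynomial

namespace Pool.Agent.Results.MP_2f4170_nt.ReducibleModEveryPrime

/-- the polynomial `1 + 2 x + ... + (n + 1) x ^ n` -/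
noncomputable def s (n : ℕ) : ℤ[X] := ∑ i ∈ Finset.range (n + 1), C ((i : ℤ) + 1) * X ^ i

/-- the reduction of `s n` modulo `p` -/
noncomputable def sbar (n p : ℕ) : (ZMod p)[X] := (s n).map (Int.castRingHom (ZMod p))

theorem result :
    -- the values `n = 8 k (k + 1)`
    (∀ k : ℕ, 0 < k → ∀ p : ℕ, p.Prime → ¬ Irreducible (sbar (8 * k * (k + 1)) p)) ∧
    -- primes modulo which `s_n` is irreducible, for general `n`
    (∀ n : ℕ, 3 ≤ n → ∀ p : ℕ, p.Prime → Irreducible (sbar n p) →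
      ¬ p ∣ 2 * (n + 1) * (n + 2) ∧
      (Even n → ¬ IsSquare (((-1) ^ (n / 2) * (2 * (n + 2)) : ℤ) : ZMod p)) ∧
      (Odd n → IsSquare (((-1) ^ ((n - 1) / 2) * (2 * (n + 1)) : ℤ) : ZMod p))) := by
  have gen : ∀ n : ℕ, 3 ≤ n → ∀ p : ℕ, p.Prime → Irreducible (sbar n p) →
      ¬ p ∣ 2 * (n + 1) * (n + 2) ∧
      (Even n → ¬ IsSquare (((-1) ^ (n / 2) * (2 * (n + 2)) : ℤ) : ZMod p)) ∧
      (Odd n → IsSquare (((-1) ^ ((n - 1) / 2) * (2 * (n + 1)) : ℤ) : ZMod p)) := by
    intro n hn p hp hirr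
    have : Fact p.Prime := ⟨hp⟩
    have hs : sbar n p = Pool.Agent.J6H52.Sn.s (ZMod p) n := by
      rw [sbar, s, ← Pool.Agent.J6H52.Sn.map_s (Int.castRingHom (ZMod p)) n]
      rfl
    rw [hs] at hirr
    obtain ⟨h2, ha, hb⟩ := Pool.Agent.J6H52.Sn.small hn hirr
    refine ⟨fun hd => ?_, fun he hsq => ?_, fun ho => ?_⟩
    · rw [← ZMod.natCast_eq_zero_iff] at hd
      push_cast at hd
      exact mul_ne_zero (mul_ne_zero h2 ha) hb hd
    · obtain ⟨c, hc⟩ := hsq
      apply Pool.Agent.J6H52.Sn.even_case h2 (by omega) he ha hb hirr c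
      rw [sq, ← hc]
      push_cast
      ring
    · obtain ⟨c, hc⟩ := Pool.Agent.J6H52.Sn.odd_case h2 ho ha hb hirr
      refine ⟨c, ?_⟩
      rw [← sq, ← hc]
      push_cast
      ring
  refine ⟨fun k hk p hp hirr => ?_, gen⟩
  have h16 : 3 ≤ 8 * k * (k + 1) := by nlinarith
  obtain ⟨-, h, -⟩ := gen _ h16 p hp hirr
  have hev : Even (8 * k * (k + 1)) := ⟨4 * k * (k + 1), by ring⟩
  apply h hev
  have hdiv : 8 * k * (k + 1) / 2 = 2 * (2 * k * (k + 1)) := by
    rw [show 8 * k * (k + 1) = 2 * (2 * (2 * k * (k + 1))) by ring,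
      Nat.mul_div_cancel_left _ (by norm_num)]
  refine ⟨((2 * (2 * k + 1) : ℤ) : ZMod p), ?_⟩
  rw [hdiv, pow_mul, neg_one_sq, one_pow, one_mul]
  push_cast
  ring

end Pool.Agent.Results.MP_2f4170_nt.ReducibleModEveryPrime
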